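import Mathlib
import Pool.Agent.H26.ZStar

set_option autoImplicit false

open Pool.Agent.H26.ZStar

namespace Pool.Agent.Results.MP_e20a4f_an.Proof

section
variable (A B : Type) [NonUnitalCStarAlgebra A] [NonUnitalCStarAlgebra B]

def Mor : Type := A →⋆ₙₐ[ℂ] DoubleCentralizer ℂ B

variable {A B}

noncomputable def app (f : Mor A B) : A → DoubleCentralizer ℂ B :=
  fun a => (show A →⋆ₙₐ[ℂ] DoubleCentralizer ℂ B from f) a

def IsWoronowicz (f : Mor A B) : Prop :=
  Dense (Submodule.span ℂ {c : B | ∃ (a : A) (b : B), c = (app f a).fst b} : Set B)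

end

theorem result (A B : Type) [NonUnitalCStarAlgebra A] [NonUnitalCStarAlgebra B]
    (hA : IsZStar A) (f : Mor A B) (hf : IsWoronowicz f) (hinj : Function.Injective (app f)) :
    IsZStar B := by
  intro b _
  let F : A →⋆ₙₐ[ℂ] DoubleCentralizer ℂ B := f
  have e : {c : B | ∃ (a : A) (b : B), c = (app f a).fst b} =
      Set.range fun p : A × B => (F p.1).fst p.2 := by
    ext c
    exact ⟨fun ⟨a, b, h⟩ => ⟨(a, b), h.symm⟩, fun ⟨p, h⟩ => ⟨p.1, p.2, h.symm⟩⟩
  have hb := hf b
  rw [e] at hb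
  obtain ⟨s, hs⟩ := countable_closure _ hb
  obtain ⟨y, hy, h⟩ := seq_ann hA fun n => (s n).1
  have h1 : (F y).fst b = 0 := by
    have hk : Submodule.span ℂ (Set.range ((fun p : A × B => (F p.1).fst p.2) ∘ s)) ≤
        LinearMap.ker (F y).fst.toLinearMap := by
      rw [Submodule.span_le]
      rintro _ ⟨n, rfl⟩
      have := congrArg (fun m => (F m).fst (s n).2) (h n)
      simpa using this
    exact closure_minimal hk (F y).fst.isClosed_ker hs
  have h2 : (F y).snd ≠ 0 := by
    intro h0
    have := DoubleCentralizer.norm_snd (F y)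
    rw [h0, norm_zero, eq_comm, norm_eq_zero] at this
    exact hy (hinj (this.trans (map_zero F).symm))
  obtain ⟨c, hc⟩ : ∃ c, (F y).snd c ≠ 0 := by
    by_contra hn
    push Not at hn
    exact h2 (ContinuousLinearMap.ext hn)
  exact ⟨_, hc, Or.inr (by rw [(F y).central, h1, mul_zero])⟩

end Pool.Agent.Results.MP_e20a4f_an.Proof
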